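import Pool.Agent.helper75.AU.SpecW

/-!
# Project au: module QW2 (uniqueness of the function field of a hyperelliptic equation)
-/

namespace Pool.Agent.helper53.AU

open scoped Classical IntermediateField
open Polynomial (aeval)

noncomputable section

theorem QW2_iso (k F : Type) [Field k] [Field F] [Algebra k F] (f : Polynomial k)
    (x y : F) (hp : Irreducible ((Polynomial.X : Polynomial (RatFunc k)) ^ 2 -
    Polynomial.C (algebraMap (Polynomial k) (RatFunc k) f))) (H : Hyp k x y f) :
    ∃ e : AdjoinRoot ((Polynomial.X : Polynomial (RatFunc k)) ^ 2 -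
      Polynomial.C (algebraMap (Polynomial k) (RatFunc k) f)) ≃ₐ[k] F,
      e (AdjoinRoot.of _ (algebraMap (Polynomial k) (RatFunc k) Polynomial.X)) = x ∧
      e (AdjoinRoot.root _) = y := by
  have hinj : Function.Injective (Polynomial.aeval x : Polynomial k →ₐ[k] F) :=
    transcendental_iff_injective.1 H.tr
  let ι : RatFunc k →ₐ[k] F := IsFractionRing.liftAlgHom hinj
  have hι : ∀ r : Polynomial k, ι (algebraMap (Polynomial k) (RatFunc k) r) = Polynomial.aeval x r := by
    intro r
    exact IsFractionRing.lift_algebraMap (A := Polynomial k) (K := RatFunc k) hinj r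
  have hroot : ((Polynomial.X : Polynomial (RatFunc k)) ^ 2 -
      Polynomial.C (algebraMap (Polynomial k) (RatFunc k) f)).eval₂ (ι : RatFunc k →+* F) y = 0 := by
    rw [Polynomial.eval₂_sub, Polynomial.eval₂_pow, Polynomial.eval₂_X, Polynomial.eval₂_C]
    rw [sub_eq_zero]
    exact H.eq.trans (hι f).symm
  haveI : Fact (Irreducible ((Polynomial.X : Polynomial (RatFunc k)) ^ 2 -
    Polynomial.C (algebraMap (Polynomial k) (RatFunc k) f))) := ⟨hp⟩
  let φ : AdjoinRoot ((Polynomial.X : Polynomial (RatFunc k)) ^ 2 -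
      Polynomial.C (algebraMap (Polynomial k) (RatFunc k) f)) →ₐ[k] F :=
    AdjoinRoot.liftAlgHom _ ι y hroot
  have h1 : φ (AdjoinRoot.of _ (algebraMap (Polynomial k) (RatFunc k) Polynomial.X)) = x := by
    rw [AdjoinRoot.liftAlgHom_of, hι, Polynomial.aeval_X]
  have h2 : φ (AdjoinRoot.root _) = y := AdjoinRoot.liftAlgHom_root _ _ _ _
  have hsurj : Function.Surjective φ := by
    rw [← AlgHom.fieldRange_eq_top]
    rw [← top_le_iff, ← H.gen, IntermediateField.adjoin_le_iff]
    intro w hw
    rcases hw with hw | hw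
    · exact ⟨_, by rw [hw]; exact h1⟩
    · exact ⟨_, by rw [Set.mem_singleton_iff.1 hw]; exact h2⟩
  refine ⟨AlgEquiv.ofBijective φ ⟨φ.toRingHom.injective, hsurj⟩, ?_, ?_⟩
  · exact h1
  · exact h2

theorem QW2 (h0 : QW0_stmt) : QW2_stmt := by
  intro k F _ _ _ f x y x' y' hsq hdeg H H'
  obtain ⟨e, he1, he2⟩ := QW2_iso k F f x y (h0 k f hsq hdeg) H
  obtain ⟨e', he1', he2'⟩ := QW2_iso k F f x' y' (h0 k f hsq hdeg) H'
  refine ⟨e.symm.trans e', ?_, ?_⟩
  · rw [AlgEquiv.trans_apply, ← he1, AlgEquiv.symm_apply_apply, he1']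
  · rw [AlgEquiv.trans_apply, ← he2, AlgEquiv.symm_apply_apply, he2']

end

end Pool.Agent.helper53.AU
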