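import Pool.Agent.helper75.AU.SpecR2

/-!
# Project au: module QU (2-groups with a cyclic subgroup of index 2 and one involution)
-/

namespace Pool.Agent.helper75.AU

open scoped Classical
open Pool.Agent.helper53.AU MulAction

theorem QU_arith (m : ℕ) (k r : ℤ) (h1 : (2 ^ (m + 1) : ℤ) ∣ (k - 1) * (k + 1))
    (h2 : (2 ^ (m + 1) : ℤ) ∣ r * (k - 1)) (h3 : ¬ (2 ^ (m + 1) : ℤ) ∣ (k - 1))
    (h4 : ∀ j : ℤ, ¬ (2 ^ (m + 1) : ℤ) ∣ r + (k + 1) * j) :
    1 ≤ m ∧ (2 ^ (m + 1) : ℤ) ∣ (k + 1) ∧ (2 ^ (m + 1) : ℤ) ∣ r - 2 ^ m := by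
  have hpow : (2 ^ (m + 1) : ℤ) = 2 * 2 ^ m := by ring
  have h2m : (2 ^ m : ℤ) ≠ 0 := by positivity
  have hkodd : k % 2 = 1 := by
    have h : (2 : ℤ) ∣ (k - 1) * (k + 1) := (Dvd.intro _ hpow.symm).trans h1
    rcases Int.emod_two_eq_zero_or_one k with h0 | h0
    · exfalso
      rcases (Int.prime_two.dvd_mul).1 h with h' | h' <;> omega
    · exact h0
  have hm : 1 ≤ m := by
    rcases Nat.eq_zero_or_pos m with h0 | h0
    · subst h0
      exfalso
      apply h3
      have : (2 : ℤ) ∣ k - 1 := by omega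
      simpa using this
    · exact h0
  have hcases : (∃ t : ℤ, k = 4 * t + 1) ∨ (∃ t : ℤ, k = 4 * t + 3) := by
    have : k % 4 = 1 ∨ k % 4 = 3 := by omega
    rcases this with h | h
    · exact Or.inl ⟨k / 4, by omega⟩
    · exact Or.inr ⟨k / 4, by omega⟩
  rcases hcases with ⟨t, ht⟩ | ⟨t, ht⟩
  · exfalso
    have hco : IsCoprime (2 ^ m : ℤ) (2 * t + 1) := by
      apply IsCoprime.pow_left
      exact ⟨-t, 1, by ring⟩
    have hd : (2 ^ m : ℤ) ∣ (k - 1) := by
      apply hco.dvd_of_dvd_mul_right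
      have : (k - 1) * (k + 1) = 2 * ((k - 1) * (2 * t + 1)) := by rw [ht]; ring
      rw [this, hpow] at h1
      exact (mul_dvd_mul_iff_left (by norm_num : (2 : ℤ) ≠ 0)).1 h1
    obtain ⟨c, hc⟩ := hd
    have hcodd : ¬ (2 : ℤ) ∣ c := by
      intro h
      obtain ⟨d, hd⟩ := h
      apply h3
      rw [hc, hd, hpow]
      exact ⟨d, by ring⟩
    have hr : (2 : ℤ) ∣ r := by
      rw [hc, hpow] at h2
      have h2' : (2 : ℤ) ∣ r * c := by
        have : r * (2 ^ m * c) = (r * c) * 2 ^ m := by ring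
        rw [this] at h2
        exact (mul_dvd_mul_iff_right h2m).1 h2
      rcases (Int.prime_two.dvd_mul).1 h2' with h | h
      · exact h
      · exact absurd h hcodd
    obtain ⟨ρ, hρ⟩ := hr
    obtain ⟨u, v, huv⟩ := hco
    apply h4 (-(ρ * v))
    rw [hρ, ht, hpow]
    refine ⟨ρ * u, ?_⟩
    linear_combination (-2 * ρ) * huv
  · have hco : IsCoprime (2 ^ m : ℤ) (2 * t + 1) := by
      apply IsCoprime.pow_left
      exact ⟨-t, 1, by ring⟩
    have hd : (2 ^ m : ℤ) ∣ (k + 1) := by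
      apply hco.dvd_of_dvd_mul_right
      have : (k - 1) * (k + 1) = 2 * ((k + 1) * (2 * t + 1)) := by rw [ht]; ring
      rw [this, hpow] at h1
      exact (mul_dvd_mul_iff_left (by norm_num : (2 : ℤ) ≠ 0)).1 h1
    have hr : (2 ^ m : ℤ) ∣ r := by
      apply hco.dvd_of_dvd_mul_right
      have : r * (k - 1) = 2 * (r * (2 * t + 1)) := by rw [ht]; ring
      rw [this, hpow] at h2
      exact (mul_dvd_mul_iff_left (by norm_num : (2 : ℤ) ≠ 0)).1 h2
    obtain ⟨c, hc⟩ := hd
    obtain ⟨ρ, hρ⟩ := hr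
    have hρodd : ρ % 2 = 1 := by
      rcases Int.emod_two_eq_zero_or_one ρ with h0 | h0
      · exfalso
        apply h4 0
        rw [mul_zero, add_zero, hρ, hpow]
        exact ⟨ρ / 2, by
          have : ρ = 2 * (ρ / 2) := by omega
          linear_combination (2 ^ m : ℤ) * this⟩
      · exact h0
    have hc0 : c % 2 = 0 := by
      rcases Int.emod_two_eq_zero_or_one c with h0 | h0
      · exact h0
      · exfalso
        apply h4 1
        rw [mul_one, hρ, hc, hpow]
        exact ⟨(ρ + c) / 2, by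
          have : ρ + c = 2 * ((ρ + c) / 2) := by omega
          linear_combination (2 ^ m : ℤ) * this⟩
    refine ⟨hm, ?_, ?_⟩
    · rw [hc, hpow]
      exact ⟨c / 2, by
          have : c = 2 * (c / 2) := by omega
          linear_combination (2 ^ m : ℤ) * this⟩
    · rw [hρ, hpow]
      exact ⟨(ρ - 1) / 2, by
          have : ρ - 1 = 2 * ((ρ - 1) / 2) := by omega
          linear_combination (2 ^ m : ℤ) * this⟩

theorem QU : QU_stmt := by
  intro W _ _ S C z hS hCS hCc hcard hzC hz2 hz1 hinv hnab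
  -- index two
  have hidx : (C.subgroupOf S).index = 2 := by
    have h1 := (C.subgroupOf S).card_mul_index
    have h2 : Nat.card (C.subgroupOf S) = Nat.card C :=
      Nat.card_congr (Subgroup.subgroupOfEquivOfLe hCS).toEquiv
    rw [h2, hcard] at h1
    have h3 : 0 < Nat.card C := Nat.card_pos
    have : Nat.card C * (C.subgroupOf S).index = Nat.card C * 2 := by rw [h1]; ring
    exact Nat.eq_of_mul_eq_mul_left h3 this
  have hmul : ∀ s ∈ S, ∀ t ∈ S, (s * t ∈ C ↔ (s ∈ C ↔ t ∈ C)) := by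
    intro s hs t ht
    have := Subgroup.mul_mem_iff_of_index_two hidx (a := ⟨s, hs⟩) (b := ⟨t, ht⟩)
    simpa [Subgroup.mem_subgroupOf] using this
  obtain ⟨⟨a, haC⟩, hgen⟩ := hCc.exists_generator
  have hgen' : ∀ c ∈ C, ∃ i : ℤ, a ^ i = c := by
    intro c hc
    obtain ⟨i, hi⟩ := Subgroup.mem_zpowers_iff.1 (hgen ⟨c, hc⟩)
    exact ⟨i, by simpa using congrArg Subtype.val hi⟩
  have hcardC : Nat.card C = orderOf a := by
    rw [← Subgroup.orderOf_mk a haC]
    exact (orderOf_eq_card_of_forall_mem_zpowers hgen).symm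
  obtain ⟨M, hM⟩ := (IsPGroup.iff_card.1 hS)
  have hdvd : orderOf a ∣ 2 ^ M := by
    rw [← hM, ← hcardC]
    exact Subgroup.card_dvd_of_le hCS
  obtain ⟨m₀, -, hm₀⟩ := (Nat.dvd_prime_pow Nat.prime_two).1 hdvd
  have hm₀1 : m₀ ≠ 0 := by
    intro h0
    rw [h0, pow_zero, orderOf_eq_one_iff] at hm₀
    obtain ⟨i, hi⟩ := hgen' z hzC
    rw [hm₀, one_zpow] at hi
    exact hz1 hi.symm
  obtain ⟨m, rfl⟩ := Nat.exists_eq_succ_of_ne_zero hm₀1
  rw [Nat.succ_eq_add_one] at hm₀
  have hord : ∀ i : ℤ, a ^ i = 1 ↔ (2 ^ (m + 1) : ℤ) ∣ i := by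
    intro i
    rw [← orderOf_dvd_iff_zpow_eq_one, hm₀]
    push_cast
    rfl
  have hzeq : z = a ^ ((2 : ℤ) ^ m) := by
    have h1 : a ^ ((2 : ℤ) ^ m) * a ^ ((2 : ℤ) ^ m) = 1 := by
      rw [← zpow_add, hord]
      exact ⟨1, by ring⟩
    rcases hinv _ (hCS (C.zpow_mem haC _)) h1 with h | h
    · exfalso
      rw [hord] at h
      have h2 : ((2 : ℤ) ^ (m + 1)) ≤ 2 ^ m := Int.le_of_dvd (by positivity) h
      have h3 : (2 : ℤ) ^ (m + 1) = 2 * 2 ^ m := by ring
      have h4 : (0 : ℤ) < 2 ^ m := by positivity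
      omega
    · exact h.symm
  -- elements outside `C`
  have key : ∀ s ∈ S, s ∉ C → 1 ≤ m ∧ s * s = z ∧ s * a * s⁻¹ = a⁻¹ := by
    intro s hs hsC
    have hss : s * s ∈ C := (hmul s hs s hs).2 Iff.rfl
    have hsi : s⁻¹ ∉ C := fun h => hsC (by simpa using C.inv_mem h)
    have hconj : s * a * s⁻¹ ∈ C := by
      have h1 : s * a ∉ C := by
        intro h
        exact hsC (((hmul s hs a (hCS haC)).1 h).2 haC)
      exact (hmul (s * a) (S.mul_mem hs (hCS haC)) s⁻¹ (S.inv_mem hs)).2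
        ⟨fun h => absurd h h1, fun h => absurd h hsi⟩
    obtain ⟨k, hk⟩ := hgen' _ hconj
    obtain ⟨r, hr⟩ := hgen' _ hss
    have hconjz : ∀ j : ℤ, s * a ^ j * s⁻¹ = a ^ (k * j) := by
      intro j
      rw [← conj_zpow, ← hk, zpow_mul]
    have h1 : (2 ^ (m + 1) : ℤ) ∣ (k - 1) * (k + 1) := by
      rw [← hord]
      have e1 : s * (s * a * s⁻¹) * s⁻¹ = a := by
        have e2 : s * (s * a * s⁻¹) * s⁻¹ = (s * s) * a * (s * s)⁻¹ := by group
        rw [e2, ← hr, ← zpow_neg]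
        rw [show a ^ r * a * a ^ (-r) = a ^ (r + 1 + -r) by
          rw [zpow_add, zpow_add, zpow_one]]
        rw [show r + 1 + -r = 1 by ring, zpow_one]
      rw [← hk, hconjz] at e1
      have : (k - 1) * (k + 1) = k * k + (-1) := by ring
      rw [this, zpow_add, e1]
      simp
    have h2 : (2 ^ (m + 1) : ℤ) ∣ r * (k - 1) := by
      rw [← hord]
      have e1 : s * (s * s) * s⁻¹ = s * s := by group
      rw [← hr, hconjz] at e1
      have : r * (k - 1) = k * r + (-r) := by ring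
      rw [this, zpow_add, e1]
      simp
    have h3 : ¬ (2 ^ (m + 1) : ℤ) ∣ (k - 1) := by
      rw [← hord]
      intro h
      have e1 : s * a * s⁻¹ = a := by
        rw [← hk, show k = (k - 1) + 1 by ring, zpow_add, h, zpow_one, one_mul]
      have e2 : s * a = a * s := by
        calc s * a = (s * a * s⁻¹) * s := by group
          _ = a * s := by rw [e1]
      have hcs : ∀ c ∈ C, Commute s c := by
        intro c hc
        obtain ⟨i, rfl⟩ := hgen' c hc
        exact Commute.zpow_right e2 i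
      have hCC : ∀ c ∈ C, ∀ d ∈ C, Commute c d := by
        intro c hc d hd
        obtain ⟨i, rfl⟩ := hgen' c hc
        obtain ⟨j, rfl⟩ := hgen' d hd
        exact Commute.zpow_zpow_self a i j
      apply hnab
      rw [Subgroup.commutator_eq_bot_iff_le_centralizer]
      -- every element of `S` is in `C` or `s C`
      have hdec : ∀ x ∈ S, ∃ c ∈ C, x = c ∨ x = s * c := by
        intro x hx
        by_cases hxC : x ∈ C
        · exact ⟨x, hxC, Or.inl rfl⟩
        · refine ⟨s⁻¹ * x, ?_, Or.inr (by group)⟩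
          exact (hmul s⁻¹ (S.inv_mem hs) x hx).2 ⟨fun h => absurd h hsi, fun h => absurd h hxC⟩
      have hsx : ∀ x ∈ S, Commute s x := by
        intro x hx
        obtain ⟨c, hc, h' | h'⟩ := hdec x hx
        · rw [h']; exact hcs c hc
        · rw [h']; exact (Commute.refl s).mul_right (hcs c hc)
      have hcx : ∀ x ∈ S, ∀ d ∈ C, Commute d x := by
        intro x hx d hd
        obtain ⟨c, hc, h' | h'⟩ := hdec x hx
        · rw [h']; exact hCC d hd c hc
        · rw [h']; exact (hcs d hd).symm.mul_right (hCC d hd c hc)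
      intro x hx
      rw [Subgroup.mem_centralizer_iff]
      intro y hy
      obtain ⟨c, hc, h' | h'⟩ := hdec y hy
      · rw [h']; exact hcx x hx c hc
      · rw [h']; exact (hsx x hx).mul_left (hcx x hx c hc)
    have h4 : ∀ j : ℤ, ¬ (2 ^ (m + 1) : ℤ) ∣ r + (k + 1) * j := by
      intro j
      rw [← hord]
      intro h
      have hx : s * a ^ j ∈ S := S.mul_mem hs (hCS (C.zpow_mem haC j))
      have hxC : s * a ^ j ∉ C := by
        intro h'
        exact hsC (((hmul s hs _ (hCS (C.zpow_mem haC j))).1 h').2 (C.zpow_mem haC j))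
      have e1 : (s * a ^ j) * (s * a ^ j) = 1 := by
        have e2 : (s * a ^ j) * (s * a ^ j) = (s * a ^ j * s⁻¹) * (s * s) * a ^ j := by group
        rw [e2, hconjz, ← hr, ← zpow_add, ← zpow_add]
        rw [show k * j + r + j = r + (k + 1) * j by ring, h]
      rcases hinv _ hx e1 with h' | h'
      · exact hxC (h' ▸ C.one_mem)
      · exact hxC (h' ▸ hzC)
    obtain ⟨hm, hk1, hr1⟩ := QU_arith m k r h1 h2 h3 h4
    refine ⟨hm, ?_, ?_⟩
    · rw [← hord, zpow_sub, mul_inv_eq_one] at hr1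
      rw [hzeq, ← hr1, hr]
    · rw [← hord, zpow_add, zpow_one] at hk1
      rw [← hk]
      exact eq_inv_of_mul_eq_one_left hk1
  have hex : ∃ s ∈ S, s ∉ C := by
    by_contra hno
    push Not at hno
    have : S = C := le_antisymm hno hCS
    rw [this] at hcard
    have h3 : 0 < Nat.card C := Nat.card_pos
    omega
  refine ⟨?_, ?_⟩
  · obtain ⟨s, hs, hsC⟩ := hex
    obtain ⟨hm, -, -⟩ := key s hs hsC
    rw [hcardC, hm₀]
    obtain ⟨m', rfl⟩ := Nat.exists_eq_add_of_le hm
    exact ⟨2 ^ m', by ring⟩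
  · intro s hs hsC
    obtain ⟨-, hz, hsa⟩ := key s hs hsC
    refine ⟨hz, ?_⟩
    intro c hc
    obtain ⟨i, rfl⟩ := hgen' c hc
    rw [← conj_zpow, hsa, inv_zpow]

end Pool.Agent.helper75.AU
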