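import Pool.Agent.helper2.AU.SpecX

/-!
# Project au: module XF (fixed fields of finite groups are function fields; degrees)
-/

namespace Pool.Agent.helper53.AU

open scoped Classical IntermediateField
open Polynomial (aeval)

noncomputable section

theorem XF_finrank (k F : Type) [Field k] [Field F] [Algebra k F]
    (H : Subgroup (F ≃ₐ[k] F)) [Fintype H] :
    Module.finrank (IntermediateField.fixedField H) F = Fintype.card H :=
  FixedPoints.finrank_eq_card H F

theorem XF_fin (k F : Type) [Field k] [Field F] [Algebra k F]
    (H : Subgroup (F ≃ₐ[k] F)) [Fintype H] :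
    FiniteDimensional (IntermediateField.fixedField H) F := by
  apply FiniteDimensional.of_finrank_pos
  rw [XF_finrank]
  exact Fintype.card_pos

theorem XF_deg (k F : Type) [Field k] [Field F] [Algebra k F] (E : IntermediateField k F) (x : E) :
    degx k (x : F) = Module.finrank E F * degx k x := by
  unfold degx
  have hmap : (IntermediateField.adjoin k ({x} : Set E)).map E.val =
      IntermediateField.adjoin k ({(x : F)} : Set F) := by
    rw [IntermediateField.adjoin_map]
    simp
  have htop : (⊤ : IntermediateField k E).map E.val = E := by
    rw [← AlgHom.fieldRange_eq_map, IntermediateField.fieldRange_val]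
  have hle : IntermediateField.adjoin k ({(x : F)} : Set F) ≤ E := by
    rw [IntermediateField.adjoin_le_iff]
    intro w hw
    rw [Set.mem_singleton_iff.1 hw]
    exact x.2
  have h1 := IntermediateField.relfinrank_mul_finrank_top hle
  have h2 : IntermediateField.relfinrank (IntermediateField.adjoin k ({(x : F)} : Set F)) E =
      Module.finrank (IntermediateField.adjoin k ({x} : Set E)) E := by
    have h3 := IntermediateField.relfinrank_map_map (IntermediateField.adjoin k ({x} : Set E))
      (⊤ : IntermediateField k E) E.val
    rw [hmap, htop, IntermediateField.relfinrank_top_right] at h3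
    exact h3
  rw [← h1, h2, mul_comm]

theorem XF_tr (k F : Type) [Field k] [Field F] [Algebra k F] (E : IntermediateField k F) (x : E)
    (hx : Transcendental k x) : Transcendental k (x : F) := by
  intro h
  apply hx
  exact (isAlgebraic_algebraMap_iff (R := k) (S := E) (A := F) (a := x) (algebraMap E F).injective).1 h

theorem XF (hL0 : QL0_stmt) : XF_stmt := by
  intro k F _ _ _ _ hF H _
  have hfin := XF_fin k F H
  have hdeg := XF_finrank k F H
  have hmain : ∀ x : IntermediateField.fixedField H, Transcendental k x →
      Transcendental k (x : F) ∧ degx k (x : F) = Fintype.card H * degx k x := by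
    intro x hx
    refine ⟨XF_tr k F _ x hx, ?_⟩
    rw [XF_deg k F _ x, hdeg]
  refine ⟨?_, hdeg, hmain⟩
  have hnalg : ¬ Algebra.IsAlgebraic k (IntermediateField.fixedField H) := by
    intro h
    obtain ⟨x, hx, -⟩ := hF
    apply hx
    have h2 : Algebra.IsAlgebraic (IntermediateField.fixedField H) F :=
      Algebra.IsAlgebraic.of_finite _ _
    have h3 : Algebra.IsAlgebraic k F := Algebra.IsAlgebraic.trans k (IntermediateField.fixedField H) F
    exact h3.isAlgebraic x
  obtain ⟨x, hx⟩ : ∃ x : IntermediateField.fixedField H, Transcendental k x := by
    by_contra hno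
    push Not at hno
    apply hnalg
    constructor
    intro x
    have := hno x
    unfold Transcendental at this
    exact not_not.1 this
  refine ⟨x, hx, ?_⟩
  obtain ⟨hxF, hd⟩ := hmain x hx
  have hfF : FiniteDimensional (IntermediateField.adjoin k ({(x : F)} : Set F)) F := hL0 k F hF x hxF
  have hpos : 0 < degx k (x : F) := Module.finrank_pos
  rw [hd] at hpos
  have hpos' : 0 < degx k x := Nat.pos_of_mul_pos_left hpos
  exact FiniteDimensional.of_finrank_pos hpos'

end

end Pool.Agent.helper53.AU
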